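import Pool.Agent.FibShift.Words

namespace Pool.Agent.FibShift

open Classical in
/-- Finite automaton from a finite-index relation. -/
lemma automaton (c : ℕ) (T : Type) [Fintype T] (P : List Bool → T → Prop)
    (h1 : ∀ x, NoConsecOnes x → ∃ τ, P x τ)
    (h2 : ∀ x y τ, NoConsecOnes x → NoConsecOnes y → P x τ → P y τ → Eqv c x y) :
    ∃ M : FibDFAO T ℕ, M.Generates (fun i => ftm (i + c)) := by
  have hne : Nonempty T := by
    obtain ⟨τ, _⟩ := h1 [] noC_nil
    exact ⟨τ⟩
  let κ : List Bool → T := fun x => if h : NoConsecOnes x then (h1 x h).choose else hne.some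
  have hκ : ∀ x, NoConsecOnes x → P x (κ x) := by
    intro x hx
    simp only [κ, hx, dif_pos]
    exact (h1 x hx).choose_spec
  let rep : T → List Bool := fun τ =>
    if h : ∃ x, NoConsecOnes x ∧ P x τ then h.choose else []
  have hrep : ∀ x, NoConsecOnes x → NoConsecOnes (rep (κ x)) ∧ Eqv c (rep (κ x)) x := by
    intro x hx
    have hex : ∃ y, NoConsecOnes y ∧ P y (κ x) := ⟨x, hx, hκ x hx⟩
    have hsp := hex.choose_spec
    have e : rep (κ x) = hex.choose := by simp only [rep, hex, dif_pos]
    rw [e]
    exact ⟨hsp.1, h2 _ _ (κ x) hsp.1 hx hsp.2 (hκ x hx)⟩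
  let M : FibDFAO T ℕ :=
    { step := fun τ b => if NoConsecOnes (rep τ ++ [b]) then some (κ (rep τ ++ [b])) else none
      start := κ []
      out := fun τ => ftm (fibVal (rep τ) + c) }
  refine ⟨M, ?_⟩
  have inv : ∀ w : List Bool, NoConsecOnes w →
      ∃ τ, M.run w = some τ ∧ NoConsecOnes (rep τ) ∧ Eqv c (rep τ) w := by
    intro w
    induction w using List.reverseRecOn with
    | nil =>
      intro _
      exact ⟨κ [], rfl, hrep [] noC_nil⟩
    | append_singleton w b ih =>
      intro hw
      have hw1 := ((noC_append w [b]).1 hw).1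
      obtain ⟨τ, g1, g2, g3⟩ := ih hw1
      have hv : NoConsecOnes (rep τ ++ [b]) := valid_of_last g3.1.symm g2 hw
      refine ⟨κ (rep τ ++ [b]), ?_, ?_⟩
      · have : M.run (w ++ [b]) = (M.run w).bind (fun q => M.step q b) := by
          simp [FibDFAO.run, List.foldl_append]
        rw [this, g1]
        simp only [Option.bind_some, M, hv, if_true]
      · obtain ⟨k1, k2⟩ := hrep _ hv
        exact ⟨k1, k2.trans hv (g3.append [b])⟩
  rintro i w ⟨hw, rfl⟩
  obtain ⟨τ, g1, g2, g3⟩ := inv w hw
  refine ⟨τ, g1, ?_⟩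
  have := g3.2 [] (by simpa using g2) (by simpa using hw)
  simpa [M] using this

lemma transport (c : ℕ) (T : Type) [Fintype T]
    (h : ∃ M : FibDFAO T ℕ, M.Generates (fun i => ftm (i + c))) :
    stateComplexity (fun i => ftm (i + c)) ≤ (Fintype.card T : ℕ∞) := by
  obtain ⟨M, hM⟩ := h
  let e := Fintype.equivFin T
  let M' : FibDFAO (Fin (Fintype.card T)) ℕ :=
    { step := fun q b => (M.step (e.symm q) b).map e
      start := e M.start
      out := fun q => M.out (e.symm q) }
  have hrun : ∀ w, M'.run w = (M.run w).map e := by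
    intro w
    induction w using List.reverseRecOn with
    | nil => rfl
    | append_singleton w b ih =>
      have t1 : M'.run (w ++ [b]) = (M'.run w).bind (fun q => M'.step q b) := by
        simp [FibDFAO.run, List.foldl_append]
      have t2 : M.run (w ++ [b]) = (M.run w).bind (fun q => M.step q b) := by
        simp [FibDFAO.run, List.foldl_append]
      rw [t1, t2, ih]
      cases M.run w with
      | none => rfl
      | some q => simp [M']
  have : ∃ M : FibDFAO (Fin (Fintype.card T)) ℕ, M.Generates (fun i => ftm (i + c)) := by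
    refine ⟨M', ?_⟩
    intro i w hw
    obtain ⟨q, h1, h2⟩ := hM i w hw
    exact ⟨e q, by rw [hrun, h1]; rfl, by simp [M', h2]⟩
  unfold stateComplexity
  exact iInf₂_le (f := fun (n : ℕ) (_ : ∃ M : FibDFAO (Fin n) ℕ,
    M.Generates (fun i => ftm (i + c))) => (n : ℕ∞)) (Fintype.card T) this

/-- words without the larger of the two synonymous blocks -/
def Avoid (w : List Bool) : Prop := ∀ α β, w ≠ α ++ (bu ++ β)

lemma reduce (k : ℕ) : ∀ (n : ℕ) (s : List Bool), fibVal s = n → NoConsecOnes s →
    ∃ s' : List Bool, s'.length = s.length ∧ NoConsecOnes s' ∧ Avoid s' ∧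
      ∀ x, NoConsecOnes (x ++ s) → NoConsecOnes (x ++ s') ∧ Eqv (Nat.fib k) (x ++ s) (x ++ s') := by
  intro n
  induction n using Nat.strong_induction_on with
  | _ n ih =>
  intro s hs hv
  by_cases h : Avoid s
  · exact ⟨s, rfl, hv, h, fun x hx => ⟨hx, Eqv.refl _ _⟩⟩
  · unfold Avoid at h
    push Not at h
    obtain ⟨α, β, rfl⟩ := h
    obtain ⟨g1, g2, g3⟩ := syn_words k α β hv
    obtain ⟨s', k1, k2, k3, k4⟩ := ih _ (hs ▸ g3) (α ++ (bv ++ β)) rfl g1
    refine ⟨s', ?_, k2, k3, ?_⟩
    · rw [k1]; simp [bu, bv]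
    · intro x hx
      have hx' : NoConsecOnes ((x ++ α) ++ (bu ++ β)) := by simpa using hx
      obtain ⟨m1, m2, _⟩ := syn_words k (x ++ α) β hx'
      rw [List.append_assoc] at m1 m2
      rw [List.append_assoc] at m2
      obtain ⟨r1, r2⟩ := k4 x m1
      exact ⟨r1, m2.trans m1 r2⟩

lemma fibVal_pad (n : ℕ) (x : List Bool) : fibVal (List.replicate n false ++ x) = fibVal x := by
  induction n with
  | zero => simp
  | succ n ih => simp [List.replicate_succ, fibVal, ih]

lemma noC_pad (n : ℕ) (x : List Bool) (h : NoConsecOnes x) :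
    NoConsecOnes (List.replicate n false ++ x) := by
  induction n with
  | zero => simpa using h
  | succ n ih =>
    rw [List.replicate_succ, List.cons_append]
    have := (noC_append [false] (List.replicate n false ++ x)).2
      ⟨by simp [NoConsecOnes], ih, by simp [lastD]⟩
    simpa using this

lemma eqv_pad (c n : ℕ) (x : List Bool) : Eqv c x (List.replicate n false ++ x) := by
  constructor
  · rcases List.eq_nil_or_concat x with rfl | ⟨x', b, rfl⟩
    · rcases n with _ | n
      · simp
      · simp [lastD, List.replicate_succ']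
    · rw [lastD_append _ _ (by simp)]
  · intro z _ _
    rw [List.append_assoc, fibVal_pad]

/-- all words of length `n` -/
def allW : ℕ → Finset (List Bool)
  | 0 => {[]}
  | n + 1 => (allW n).image (List.cons false) ∪ (allW n).image (List.cons true)

lemma mem_allW (n : ℕ) : ∀ w : List Bool, w ∈ allW n ↔ w.length = n := by
  induction n with
  | zero => intro w; simp [allW]
  | succ n ih =>
    intro w
    rcases w with _ | ⟨b, w⟩
    · simp [allW]
    · cases b <;> simp [allW, ih]

open Classical in
/-- reduced words of length `n` -/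
noncomputable def red (n : ℕ) : Finset (List Bool) :=
  (allW n).filter fun s => NoConsecOnes s ∧ Avoid s

lemma mem_red (n : ℕ) (w : List Bool) :
    w ∈ red n ↔ w.length = n ∧ NoConsecOnes w ∧ Avoid w := by
  classical
  unfold red
  rw [Finset.mem_filter, mem_allW]

/-- type with values in a finite type -/
def typF (x : List Bool) : Bool × Fin 2 × Fin 2 :=
  (lastD x, ⟨ftm (fibVal x), Nat.mod_lt _ (by norm_num)⟩,
    ⟨ftm (fibVal x + 1), Nat.mod_lt _ (by norm_num)⟩)

lemma typ_of_typF {x y : List Bool} (h : typF x = typF y) : typ x = typ y := by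
  simp only [typF, Prod.mk.injEq] at h
  simp only [typ, Prod.mk.injEq]
  exact ⟨h.1, congrArg Fin.val h.2.1, congrArg Fin.val h.2.2⟩

theorem complexity_le (k : ℕ) :
    stateComplexity (fun i => ftm (i + Nat.fib k)) ≤ ((8 * (red k).card : ℕ) : ℕ∞) := by
  have hcard : Fintype.card ((Bool × Fin 2 × Fin 2) × {s // s ∈ red k}) = 8 * (red k).card := by
    simp [Fintype.card_prod]
  rw [← hcard]
  apply transport
  apply automaton (Nat.fib k) ((Bool × Fin 2 × Fin 2) × {s // s ∈ red k})
    (fun x τ => ∃ x1, typF x1 = τ.1 ∧ NoConsecOnes (x1 ++ τ.2.1) ∧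
      Eqv (Nat.fib k) x (x1 ++ τ.2.1))
  · intro x hx
    have hp := noC_pad k x hx
    have hpe := eqv_pad (Nat.fib k) k x
    set p := List.replicate k false ++ x with hpdef
    have hlen : p.length = k + x.length := by simp [hpdef]
    have hsplit : p.take x.length ++ p.drop x.length = p := List.take_append_drop _ _
    have hv : NoConsecOnes (p.take x.length ++ p.drop x.length) := by rw [hsplit]; exact hp
    have hv2 := (noC_append _ _).1 hv
    obtain ⟨s', k1, k2, k3, k4⟩ := reduce k _ (p.drop x.length) rfl hv2.2.1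
    obtain ⟨r1, r2⟩ := k4 (p.take x.length) hv
    have hmem : s' ∈ red k := by
      rw [mem_red]
      refine ⟨?_, k2, k3⟩
      rw [k1, List.length_drop, hlen]
      omega
    refine ⟨(typF (p.take x.length), ⟨s', hmem⟩), p.take x.length, rfl, r1, ?_⟩
    rw [hsplit] at r2
    exact hpe.trans hp r2
  · rintro x y ⟨τ, s, hs⟩ hx hy ⟨x1, h1, h2, h3⟩ ⟨y1, g1, g2, g3⟩
    rw [mem_red] at hs
    have ht : typ x1 = typ y1 := typ_of_typF (h1.trans g1.symm)
    have := trunc_words k x1 y1 s (by omega) ht h2 ((noC_append _ _).1 g2).1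
    exact h3.trans h2 (this.trans g2 g3.symm)

end Pool.Agent.FibShift
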