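import Pool.Agent.FibShift.Defs

namespace Pool.Agent.FibShift

/-- sum of the Fibonacci numbers with indices in the list, indices shifted by `s` -/
def S (s : ℕ) (l : List ℕ) : ℕ := (l.map (fun i => Nat.fib (i + s))).sum

/-- strictly decreasing with gaps at least two -/
def Z (l : List ℕ) : Prop := l.Pairwise (fun a b => b + 2 ≤ a)

@[simp] lemma S_nil (s : ℕ) : S s [] = 0 := rfl
@[simp] lemma S_cons (s a : ℕ) (l : List ℕ) : S s (a :: l) = Nat.fib (a + s) + S s l := by
  simp [S]
@[simp] lemma S_append (s : ℕ) (l l' : List ℕ) : S s (l ++ l') = S s l + S s l' := by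
  simp [S]

local instance : IsTrans ℕ fun a b => b + 2 ≤ a where
  trans _a _b _c hba hcb := by omega

lemma isZ (l : List ℕ) (h : Z l) (h2 : ∀ a ∈ l, 2 ≤ a) : l.IsZeckendorfRep := by
  unfold List.IsZeckendorfRep
  rw [List.isChain_iff_pairwise, List.pairwise_append]
  refine ⟨h, by simp, ?_⟩
  intro a ha b hb
  simp at hb
  subst hb
  exact h2 a ha

lemma Z_zeck (n : ℕ) : Z (Nat.zeckendorf n) ∧ ∀ a ∈ Nat.zeckendorf n, 2 ≤ a := by
  have h := Nat.isZeckendorfRep_zeckendorf n
  unfold List.IsZeckendorfRep at h
  rw [List.isChain_iff_pairwise, List.pairwise_append] at h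
  refine ⟨h.1, fun a ha => ?_⟩
  have := h.2.2 a ha 0 (by simp)
  omega

lemma S_zeck (n : ℕ) : S 0 (Nat.zeckendorf n) = n := by
  simp [S]

lemma ftm_S (l : List ℕ) (h : Z l) (h2 : ∀ a ∈ l, 2 ≤ a) : ftm (S 0 l) = l.length % 2 := by
  have := Nat.zeckendorf_sum_fib (isZ l h h2)
  unfold ftm
  have h3 : S 0 l = (l.map Nat.fib).sum := by simp [S]
  rw [h3, this]

lemma fib_le_S (s : ℕ) (l : List ℕ) (a : ℕ) (ha : a ∈ l) : Nat.fib (a + s) ≤ S s l := by
  induction l with
  | nil => simp at ha
  | cons b l ih =>
    simp at ha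
    rcases ha with rfl | ha
    · simp
    · have := ih ha
      simp; omega

/-- bound for a sum: all indices `≤ m`, gaps two, then the sum is `< F_{m+1}`. -/
lemma S_lt (s : ℕ) (l : List ℕ) (m : ℕ) (h : Z l) (h2 : ∀ a ∈ l, 2 ≤ a + s ∧ a ≤ m)
    (hm : 0 < m + 1 + s) :
    S s l < Nat.fib (m + 1 + s) := by
  induction l generalizing m with
  | nil => simp only [S_nil]; exact Nat.fib_pos.2 hm
  | cons a l ih =>
    have ha := h2 a (by simp)
    unfold Z at h
    rw [List.pairwise_cons] at h
    have hal : ∀ b ∈ l, 2 ≤ b + s ∧ b ≤ a - 2 := by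
      intro b hb
      have h1 := h.1 b hb
      have h3 := (h2 b (by simp [hb]))
      omega
    have hlt : S s l < Nat.fib (a + s - 1) := by
      by_cases ha2 : 2 ≤ a
      · have := ih (a - 2) h.2 hal (by omega)
        have e : a - 2 + 1 + s = a + s - 1 := by omega
        rwa [e] at this
      · have : l = [] := by
          rcases l with _ | ⟨b, l⟩
          · rfl
          · have h1 := h.1 b (by simp)
            omega
        subst this
        simp only [S_nil]
        apply Nat.fib_pos.2
        omega
    have hf : Nat.fib (a + s + 1) = Nat.fib (a + s - 1) + Nat.fib (a + s) := by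
      have : a + s + 1 = (a + s - 1) + 2 := by omega
      rw [this, Nat.fib_add_two]
      congr 2
      omega
    have hmono : Nat.fib (a + s + 1) ≤ Nat.fib (m + 1 + s) := Nat.fib_mono (by omega)
    simp only [S_cons]
    omega

/-- Adding `F_j` to a number whose indices are all `≥ j+1` only touches indices `≥ j`. -/
lemma carry_up (A : List ℕ) : ∀ (j : ℕ), Z A → (∀ a ∈ A, j + 1 ≤ a) →
    ∃ A' : List ℕ, Z A' ∧ (∀ a ∈ A', j ≤ a) ∧ ∀ s, S s A' = S s A + Nat.fib (j + s) := by
  induction A using List.reverseRecOn with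
  | nil =>
    intro j _ _
    exact ⟨[j], by simp [Z], by simp, by simp⟩
  | append_singleton A a ih =>
    intro j hZ hA
    unfold Z at hZ
    rw [List.pairwise_append] at hZ
    obtain ⟨hZ1, _, hZ3⟩ := hZ
    have ha : j + 1 ≤ a := hA a (by simp)
    by_cases h : a = j + 1
    · subst h
      obtain ⟨A', h1, h2, h3⟩ := ih (j + 2) hZ1 (by
        intro b hb
        have := hZ3 b hb (j + 1) (by simp)
        omega)
      refine ⟨A', h1, fun b hb => by have := h2 b hb; omega, ?_⟩
      intro s
      rw [h3 s]
      simp only [S_append, S_cons, S_nil]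
      have e : j + 2 + s = (j + s) + 2 := by ring
      rw [e, Nat.fib_add_two]
      have e2 : j + 1 + s = j + s + 1 := by ring
      rw [e2]
      omega
    · refine ⟨A ++ [a] ++ [j], ?_, ?_, ?_⟩
      · unfold Z
        rw [List.pairwise_append, List.pairwise_append]
        refine ⟨⟨hZ1, by simp, hZ3⟩, by simp, ?_⟩
        intro b hb c hc
        simp at hc
        subst hc
        simp at hb
        rcases hb with hb | rfl
        · have := hZ3 b hb a (by simp)
          omega
        · omega
      · intro b hb
        simp at hb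
        rcases hb with hb | rfl | rfl
        · have := hA b (by simp [hb]); omega
        · omega
        · omega
      · intro s
        simp
        ring

lemma Z_append (A B : List ℕ) : Z (A ++ B) ↔ Z A ∧ Z B ∧ ∀ a ∈ A, ∀ b ∈ B, b + 2 ≤ a := by
  unfold Z; rw [List.pairwise_append]

lemma Z_cons (a : ℕ) (B : List ℕ) : Z (a :: B) ↔ (∀ b ∈ B, b + 2 ≤ a) ∧ Z B := by
  unfold Z; rw [List.pairwise_cons]

lemma Z_join (A B : List ℕ) (t : ℕ) (hA : Z A) (hB : Z B) (h1 : ∀ a ∈ A, t + 2 ≤ a)
    (h2 : ∀ b ∈ B, b ≤ t) : Z (A ++ B) := by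
  rw [Z_append]
  refine ⟨hA, hB, fun a ha b hb => ?_⟩
  have := h1 a ha
  have := h2 b hb
  omega

lemma Z_join' (A B : List ℕ) (t : ℕ) (hA : Z A) (hB : Z B) (h1 : ∀ a ∈ A, t ≤ a)
    (h2 : ∀ b ∈ B, b + 2 ≤ t) : Z (A ++ B) := by
  rw [Z_append]
  refine ⟨hA, hB, fun a ha b hb => ?_⟩
  have := h1 a ha
  have := h2 b hb
  omega

lemma split_at (A : List ℕ) (t : ℕ) (hZ : Z A) :
    ∃ hi lo, A = hi ++ lo ∧ (∀ a ∈ hi, t ≤ a) ∧ (∀ a ∈ lo, a < t) := by
  induction A with
  | nil => exact ⟨[], [], by simp, by simp, by simp⟩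
  | cons a A ih =>
    rw [Z_cons] at hZ
    by_cases h : t ≤ a
    · obtain ⟨hi, lo, h1, h2, h3⟩ := ih hZ.2
      refine ⟨a :: hi, lo, by simp [h1], ?_, h3⟩
      intro b hb
      simp at hb
      rcases hb with rfl | hb
      · exact h
      · exact h2 b hb
    · refine ⟨[], a :: A, by simp, by simp, ?_⟩
      intro b hb
      simp at hb
      rcases hb with rfl | hb
      · omega
      · have := hZ.1 b hb; omega

lemma fib_rec (n : ℕ) : Nat.fib (n + 2) = Nat.fib n + Nat.fib (n + 1) := Nat.fib_add_two

/-- Adding `F_k` to a number whose indices are all `≥ j+2`, where `k ≥ j`, only touches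
indices `≥ j`. -/
lemma add_general (j : ℕ) : ∀ (k : ℕ) (A : List ℕ), Z A → (∀ a ∈ A, j + 2 ≤ a) → j ≤ k →
    ∃ A' : List ℕ, Z A' ∧ (∀ a ∈ A', j ≤ a) ∧ ∀ s, S s A' = S s A + Nat.fib (k + s) := by
  intro k
  induction k using Nat.strong_induction_on with
  | _ k ih =>
  intro A hZ hA hk
  obtain ⟨hi, r, rfl, hhi, hr⟩ := split_at A (k + 2) hZ
  rw [Z_append] at hZ
  obtain ⟨hZhi, hZr, hZc⟩ := hZ
  rcases r with _ | ⟨b, r⟩
  · obtain ⟨A', h1, h2, h3⟩ := carry_up hi k hZhi (fun a ha => by have := hhi a ha; omega)
    exact ⟨A', h1, fun a ha => by have := h2 a ha; omega, fun s => by rw [h3 s]; simp⟩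
  · have hb : b < k + 2 := hr b (by simp)
    have hbj : j + 2 ≤ b := hA b (by simp)
    rw [Z_cons] at hZr
    have hrj : ∀ c ∈ r, j + 2 ≤ c := fun c hc => hA c (by simp [hc])
    by_cases e1 : b = k + 1
    · subst e1
      obtain ⟨A', h1, h2, h3⟩ := carry_up hi (k + 2) hZhi (fun a ha => by
        have := hZc a ha (k + 1) (by simp); omega)
      refine ⟨A' ++ r, Z_join' A' r (k + 2) h1 hZr.2 h2 (fun c hc => by
        have := hZr.1 c hc; omega), ?_, ?_⟩
      · intro a ha
        rw [List.mem_append] at ha
        rcases ha with ha | ha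
        · have := h2 a ha; omega
        · have := hrj a ha; omega
      · intro s
        rw [S_append, h3 s]
        simp only [S_append, S_cons]
        have := fib_rec (k + s)
        have e : k + 2 + s = k + s + 2 := by ring
        have e2 : k + 1 + s = k + s + 1 := by ring
        rw [e, e2]
        omega
    by_cases e2 : b = k
    · subst e2
      obtain ⟨A', h1, h2, h3⟩ := carry_up hi (b + 1) hZhi (fun a ha => by
        have := hZc a ha b (by simp); omega)
      obtain ⟨B', g1, g2, g3⟩ := ih (b - 2) (by omega) r hZr.2 hrj (by omega)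
      have hB : ∀ c ∈ B', c < b := by
        intro c hc
        have t1 := fib_le_S 2 B' c hc
        rw [g3 2] at t1
        have t2 := S_lt 2 r (b - 2) hZr.2 (fun a ha => by have := hZr.1 a ha; omega) (by omega)
        have t3 : Nat.fib (c + 2) < Nat.fib (b + 2) := by
          have := fib_rec b
          have e3 : b - 2 + 1 + 2 = b + 1 := by omega
          have e4 : b - 2 + 2 = b := by omega
          rw [e3] at t2
          rw [e4] at t1
          omega
        by_contra hcon
        have := Nat.fib_mono (show b + 2 ≤ c + 2 by omega)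
        omega
      refine ⟨A' ++ B', Z_join' A' B' (b + 1) h1 g1 h2 (fun c hc => by
        have := hB c hc; omega), ?_, ?_⟩
      · intro a ha
        rw [List.mem_append] at ha
        rcases ha with ha | ha
        · have := h2 a ha; omega
        · exact g2 a ha
      · intro s
        rw [S_append, h3 s, g3 s]
        simp only [S_append, S_cons]
        have t1 := fib_rec (b - 2 + s)
        have t2 := fib_rec (b - 2 + s + 1)
        have e3 : b - 2 + s + 2 = b + s := by omega
        have e4 : b - 2 + s + 1 + 2 = b + 1 + s := by omega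
        have e5 : b - 2 + s + 1 + 1 = b + s := by omega
        rw [e3] at t1
        rw [e4, e5] at t2
        omega
    by_cases e3 : b = k - 1
    · obtain ⟨A', h1, h2, h3⟩ := carry_up hi (k + 1) hZhi (fun a ha => by
        have := hhi a ha; omega)
      refine ⟨A' ++ r, Z_join' A' r (k + 1) h1 hZr.2 h2 (fun c hc => by
        have := hZr.1 c hc; omega), ?_, ?_⟩
      · intro a ha
        rw [List.mem_append] at ha
        rcases ha with ha | ha
        · have := h2 a ha; omega
        · have := hrj a ha; omega
      · intro s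
        rw [S_append, h3 s]
        simp only [S_append, S_cons]
        have := fib_rec (b + s)
        have e : k + 1 + s = b + s + 2 := by omega
        have e2 : k + s = b + s + 1 := by omega
        rw [e, e2]
        omega
    · obtain ⟨A', h1, h2, h3⟩ := carry_up hi k hZhi (fun a ha => by have := hhi a ha; omega)
      refine ⟨A' ++ (b :: r), Z_join' A' (b :: r) k h1 ((Z_cons b r).2 hZr) h2 (fun c hc => by
        simp at hc
        rcases hc with rfl | hc
        · omega
        · have := hZr.1 c hc; omega), ?_, ?_⟩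
      · intro a ha
        rw [List.mem_append] at ha
        rcases ha with ha | ha
        · have := h2 a ha; omega
        · simp at ha
          rcases ha with rfl | ha
          · omega
          · have := hrj a ha; omega
      · intro s
        rw [S_append, h3 s]
        simp only [S_append, S_cons]
        omega

end Pool.Agent.FibShift
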