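import Pool.Agent.FibShift.Auto

namespace Pool.Agent.FibShift

open Real

/-- sum of `f` over all extensions by `j` digits -/
def ES (f : List Bool → ℝ) : ℕ → List Bool → ℝ
  | 0, x => f x
  | j + 1, x => ES f j (x ++ [false]) + ES f j (x ++ [true])

open Classical in
noncomputable def H' (x : List Bool) : ℝ :=
  if NoConsecOnes x then (if lastD x then 1 else goldenRatio) else 0

open Classical in
noncomputable def H (x : List Bool) : ℝ :=
  if NoConsecOnes x ∧ Avoid x then (if lastD x then 1 else goldenRatio) else 0

lemma phi_one_le : 1 ≤ goldenRatio := one_lt_goldenRatio.le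

lemma H'_nonneg (x : List Bool) : 0 ≤ H' x := by
  unfold H'
  have := phi_one_le
  split_ifs <;> linarith

lemma H'_le (x : List Bool) : H' x ≤ goldenRatio := by
  unfold H'
  have := phi_one_le
  split_ifs <;> linarith

lemma H_le_H' (x : List Bool) : H x ≤ H' x := by
  unfold H H'
  have := phi_one_le
  by_cases h1 : NoConsecOnes x <;> by_cases h2 : Avoid x <;> by_cases h3 : lastD x = true <;>
    simp [h1, h2, h3] <;> linarith

lemma H'_step (x : List Bool) : H' (x ++ [false]) + H' (x ++ [true]) ≤ goldenRatio * H' x := by
  have hphi := goldenRatio_sq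
  have h1 := phi_one_le
  by_cases hx : NoConsecOnes x
  · have hf : NoConsecOnes (x ++ [false]) := (noC_append _ _).2 ⟨hx, by simp [NoConsecOnes],
      by simp [headD]⟩
    have lf : lastD (x ++ [false]) = false := by rw [lastD_append _ _ (by simp)]; simp [lastD]
    have lt : lastD (x ++ [true]) = true := by rw [lastD_append _ _ (by simp)]; simp [lastD]
    by_cases hl : lastD x = true
    · have ht : ¬ NoConsecOnes (x ++ [true]) := by
        rw [noC_append]
        rintro ⟨_, _, h⟩
        exact h ⟨hl, by simp [headD]⟩
      simp [H', hx, hf, lf, hl, ht]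
    · have ht : NoConsecOnes (x ++ [true]) := by
        rw [noC_append]
        exact ⟨hx, by simp [NoConsecOnes], fun h => hl h.1⟩
      simp only [H', hx, hf, lf, hl, ht, lt, if_true]
      norm_num
      nlinarith
  · have hf : ¬ NoConsecOnes (x ++ [false]) := fun h => hx ((noC_append _ _).1 h).1
    have ht : ¬ NoConsecOnes (x ++ [true]) := fun h => hx ((noC_append _ _).1 h).1
    simp [H', hx, hf, ht]

lemma ES_mono {f g : List Bool → ℝ} (h : ∀ x, f x ≤ g x) : ∀ j x, ES f j x ≤ ES g j x := by
  intro j
  induction j with
  | zero => intro x; exact h x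
  | succ j ih => intro x; exact add_le_add (ih _) (ih _)

lemma ES_smul (K : ℝ) (f : List Bool → ℝ) : ∀ j x, ES (fun y => K * f y) j x = K * ES f j x := by
  intro j
  induction j with
  | zero => intro x; rfl
  | succ j ih => intro x; simp only [ES, ih]; ring

lemma ES_H' : ∀ j x, ES H' j x ≤ goldenRatio ^ j * H' x := by
  intro j
  induction j with
  | zero => intro x; simp [ES]
  | succ j ih =>
    intro x
    calc ES H' (j + 1) x ≤ goldenRatio ^ j * H' (x ++ [false]) + goldenRatio ^ j * H' (x ++ [true]) :=
          add_le_add (ih _) (ih _)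
      _ = goldenRatio ^ j * (H' (x ++ [false]) + H' (x ++ [true])) := by ring
      _ ≤ goldenRatio ^ j * (goldenRatio * H' x) := by
          apply mul_le_mul_of_nonneg_left (H'_step x)
          exact pow_nonneg (by linarith [phi_one_le]) _
      _ = goldenRatio ^ (j + 1) * H' x := by ring

lemma ES_bound {f : List Bool → ℝ} {K : ℝ} (hK : 0 ≤ K) (hf : ∀ y, f y ≤ K * H' y) (j : ℕ)
    (x : List Bool) : ES f j x ≤ K * (goldenRatio ^ j * H' x) := by
  calc ES f j x ≤ ES (fun y => K * H' y) j x := ES_mono hf j x
    _ = K * ES H' j x := ES_smul K H' j x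
    _ ≤ K * (goldenRatio ^ j * H' x) := mul_le_mul_of_nonneg_left (ES_H' j x) hK

lemma ES_path {f : List Bool → ℝ} {K : ℝ} (hK : 0 ≤ K) (hf : ∀ y, f y ≤ K * H' y) :
    ∀ (w x : List Bool), f (x ++ w) ≤ 0 →
      ES f w.length x ≤ K * (goldenRatio ^ w.length * H' x - H' (x ++ w)) := by
  intro w
  induction w with
  | nil =>
    intro x hx
    simp at hx
    simpa [ES] using hx
  | cons d w ih =>
    intro x hx
    have hx' : f ((x ++ [d]) ++ w) ≤ 0 := by simpa using hx
    have h1 := ih (x ++ [d]) hx'
    have h2 := ES_bound hK hf w.length (x ++ [!d])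
    have hstep := H'_step x
    have hpow : 0 ≤ goldenRatio ^ w.length := pow_nonneg (by linarith [phi_one_le]) _
    have e : x ++ [d] ++ w = x ++ d :: w := by simp
    rw [e] at h1
    have hsum : ES f (w.length + 1) x = ES f w.length (x ++ [d]) + ES f w.length (x ++ [!d]) := by
      cases d
      · simp [ES]
      · simp [ES, add_comm]
    have hsum2 : H' (x ++ [false]) + H' (x ++ [true]) = H' (x ++ [d]) + H' (x ++ [!d]) := by
      cases d
      · simp
      · simp [add_comm]
    rw [List.length_cons, hsum]
    calc ES f w.length (x ++ [d]) + ES f w.length (x ++ [!d])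
        ≤ K * (goldenRatio ^ w.length * H' (x ++ [d]) - H' (x ++ d :: w)) +
          K * (goldenRatio ^ w.length * H' (x ++ [!d])) := add_le_add h1 h2
      _ = K * (goldenRatio ^ w.length * (H' (x ++ [false]) + H' (x ++ [true])) -
          H' (x ++ d :: w)) := by rw [hsum2]; ring
      _ ≤ K * (goldenRatio ^ w.length * (goldenRatio * H' x) - H' (x ++ d :: w)) := by
          apply mul_le_mul_of_nonneg_left _ hK
          have := mul_le_mul_of_nonneg_left hstep hpow
          linarith
      _ = K * (goldenRatio ^ (w.length + 1) * H' x - H' (x ++ d :: w)) := by ring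

lemma ES_add (f : List Bool → ℝ) (i : ℕ) : ∀ j x, ES f (i + j) x = ES (ES f i) j x := by
  intro j
  induction j with
  | zero => intro x; rfl
  | succ j ih =>
    intro x
    have e : i + (j + 1) = (i + j) + 1 := rfl
    rw [e]
    simp only [ES, ih]

/-- words containing the block contribute zero, with all their extensions -/
lemma ES_zero (x : List Bool) (h : ¬ Avoid x) : ∀ j, ES H j x = 0 := by
  intro j
  induction j generalizing x with
  | zero => simp [ES, H, h]
  | succ j ih =>
    have hext : ∀ b, ¬ Avoid (x ++ [b]) := by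
      intro b
      unfold Avoid at h ⊢
      push Not at h ⊢
      obtain ⟨α, β, rfl⟩ := h
      exact ⟨α, β ++ [b], by simp⟩
    simp only [ES]
    rw [ih _ (hext false), ih _ (hext true)]
    simp

lemma ES_main (q : ℕ) : ∀ x, ES H (14 * q) x ≤ (goldenRatio ^ 14 - 1) ^ q * H' x := by
  induction q with
  | zero => intro x; simpa [ES] using H_le_H' x
  | succ q ih =>
    intro x
    have h1 : 1 ≤ goldenRatio ^ 14 := one_le_pow₀ phi_one_le
    have hK : 0 ≤ (goldenRatio ^ 14 - 1) ^ q := pow_nonneg (by linarith) q
    have e : 14 * (q + 1) = 14 * q + 14 := by ring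
    rw [e, ES_add]
    by_cases hx : NoConsecOnes x
    · set w : List Bool := false :: bu with hw
      have hlen : w.length = 14 := by simp [hw, bu]
      have hzero : ES H (14 * q) (x ++ w) ≤ 0 := by
        rw [ES_zero]
        unfold Avoid
        push Not
        exact ⟨x ++ [false], [], by simp [hw]⟩
      have := ES_path hK ih w x hzero
      rw [hlen] at this
      have hH' : H' (x ++ w) = goldenRatio := by
        have hv : NoConsecOnes (x ++ w) := by
          rw [noC_append]
          exact ⟨hx, by simp [NoConsecOnes, hw, bu], by simp [headD, hw]⟩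
        have hl : lastD (x ++ w) = false := by
          rw [lastD_append _ _ (by simp [hw])]; simp [lastD, hw, bu]
        simp [H', hv, hl]
      rw [hH'] at this
      calc ES (ES H (14 * q)) 14 x
          ≤ (goldenRatio ^ 14 - 1) ^ q * (goldenRatio ^ 14 * H' x - goldenRatio) := this
        _ ≤ (goldenRatio ^ 14 - 1) ^ q * (goldenRatio ^ 14 * H' x - H' x) := by
            apply mul_le_mul_of_nonneg_left _ hK
            linarith [H'_le x]
        _ = (goldenRatio ^ 14 - 1) ^ (q + 1) * H' x := by ring
    · have hH : H' x = 0 := by simp [H', hx]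
      have := ES_bound hK ih 14 x
      rw [hH] at this ⊢
      simpa using this

open Classical in
lemma count_le (j : ℕ) : ∀ x : List Bool,
    (((allW j).filter fun y => NoConsecOnes (x ++ y) ∧ Avoid (x ++ y)).card : ℝ) ≤ ES H j x := by
  induction j with
  | zero =>
    intro x
    simp only [allW, ES]
    by_cases h : NoConsecOnes x ∧ Avoid x
    · have h1 := phi_one_le
      have e : (({[]} : Finset (List Bool)).filter fun y => NoConsecOnes (x ++ y) ∧ Avoid (x ++ y))
          = {[]} := by
        ext y; simp
        rintro rfl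
        simpa using h
      rw [e]
      simp only [H, h, if_true, and_self]
      split_ifs <;> simp <;> linarith
    · have e : (({[]} : Finset (List Bool)).filter fun y => NoConsecOnes (x ++ y) ∧ Avoid (x ++ y))
          = ∅ := by
        ext y; simp
        rintro rfl
        simpa using h
      rw [e]
      simp [H, h]
  | succ j ih =>
    intro x
    simp only [allW, ES]
    rw [Finset.filter_union]
    have hb : ∀ b : Bool, ((((allW j).image (List.cons b)).filter fun y =>
        NoConsecOnes (x ++ y) ∧ Avoid (x ++ y)).card : ℝ) ≤ ES H j (x ++ [b]) := by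
      intro b
      refine le_trans ?_ (ih (x ++ [b]))
      rw [Finset.filter_image]
      have := Finset.card_image_le (s := (allW j).filter fun y =>
        NoConsecOnes (x ++ List.cons b y) ∧ Avoid (x ++ List.cons b y)) (f := List.cons b)
      have e : ∀ y : List Bool, x ++ [b] ++ y = x ++ List.cons b y := by intro y; simp
      simp only [e]
      exact_mod_cast this
    refine le_trans ?_ (add_le_add (hb false) (hb true))
    exact_mod_cast Finset.card_union_le _ _

lemma red_card (q : ℕ) : ((red (14 * q)).card : ℝ) ≤ (goldenRatio ^ 14 - 1) ^ q * goldenRatio := by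
  have h1 := count_le (14 * q) []
  have h2 := ES_main q []
  have h3 := H'_le []
  have h4 : 1 ≤ goldenRatio ^ 14 := one_le_pow₀ phi_one_le
  have hK : 0 ≤ (goldenRatio ^ 14 - 1) ^ q := pow_nonneg (by linarith) q
  have h5 := mul_le_mul_of_nonneg_left h3 hK
  unfold red
  simp only [List.nil_append] at h1
  linarith

lemma fib_ge (n : ℕ) : goldenRatio ^ n ≤ (Nat.fib (n + 2) : ℝ) := by
  have hphi := goldenRatio_sq
  have hlt : goldenRatio < 2 := goldenRatio_lt_two
  have key : ∀ n, goldenRatio ^ n ≤ (Nat.fib (n + 2) : ℝ) ∧
      goldenRatio ^ (n + 1) ≤ (Nat.fib (n + 3) : ℝ) := by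
    intro n
    induction n with
    | zero =>
      have e : Nat.fib 3 = 2 := by decide
      simp [e]; linarith
    | succ n ih =>
      refine ⟨ih.2, ?_⟩
      have e : Nat.fib (n + 1 + 3) = Nat.fib (n + 2) + Nat.fib (n + 3) := Nat.fib_add_two
      rw [e]
      push_cast
      have : goldenRatio ^ (n + 1 + 1) = goldenRatio ^ n + goldenRatio ^ (n + 1) := by
        have : goldenRatio ^ (n + 1 + 1) = goldenRatio ^ n * goldenRatio ^ 2 := by ring
        rw [this, hphi]; ring
      rw [this]
      exact add_le_add ih.1 ih.2
  exact (key n).1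

end Pool.Agent.FibShift
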