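import Mathlib

/-!
Fibonacci automata (with a transition function that may be undefined) and the
Fibonacci-Thue-Morse sequence.
-/

namespace Pool.Agent.FibShift

/-- The value of a binary word read most significant digit first.  The last digit has weight
`F_2 = 1`, the one before it `F_3 = 2`, and so on. -/
def fibVal : List Bool → ℕ
  | [] => 0
  | b :: w => (if b then Nat.fib (w.length + 2) else 0) + fibVal w

/-- No two consecutive digits are both equal to `1`. -/
def NoConsecOnes (w : List Bool) : Prop :=
  w.IsChain fun a b => ¬ (a = true ∧ b = true)

/-- `w` is a valid Fibonacci (Zeckendorf) representation of `i`, leading zeros allowed. -/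
def IsRep (w : List Bool) (i : ℕ) : Prop := NoConsecOnes w ∧ fibVal w = i

/-- A Fibonacci-DFAO with state set `Q` and outputs in `Δ`; the transition function
may be undefined (`none`). -/
structure FibDFAO (Q Δ : Type) where
  step : Q → Bool → Option Q
  start : Q
  out : Q → Δ

/-- The state reached on a word, if defined. -/
def FibDFAO.run {Q Δ : Type} (M : FibDFAO Q Δ) (w : List Bool) : Option Q :=
  w.foldl (fun s b => s.bind fun q => M.step q b) (some M.start)

/-- `M` generates the sequence `h`: on every valid representation `w` of `i` the run is defined
and the output of the state reached is `h i`. -/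
def FibDFAO.Generates {Q Δ : Type} (M : FibDFAO Q Δ) (h : ℕ → Δ) : Prop :=
  ∀ (i : ℕ) (w : List Bool), IsRep w i → ∃ q, M.run w = some q ∧ M.out q = h i

/-- The least number of states of a Fibonacci-DFAO generating `h` (`⊤` if there is none). -/
noncomputable def stateComplexity {Δ : Type} (h : ℕ → Δ) : ℕ∞ :=
  ⨅ (n : ℕ) (_ : ∃ M : FibDFAO (Fin n) Δ, M.Generates h), (n : ℕ∞)

/-- The Fibonacci-Thue-Morse sequence: the number of `1`s in the Zeckendorf representation
of `i`, modulo `2`. -/
def ftm (i : ℕ) : ℕ := (Nat.zeckendorf i).length % 2

end Pool.Agent.FibShift
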