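import Pool.Agent.FibShift.Carry

namespace Pool.Agent.FibShift

/-- parity of the length of any admissible index list with the given sum -/
lemma ftm_of (N : ℕ) (l : List ℕ) (h : Z l) (h2 : ∀ a ∈ l, 2 ≤ a) (hs : S 0 l = N) :
    ftm N = l.length % 2 := by
  rw [← hs]; exact ftm_S l h h2

/-- index sets (relative to the base `m`) of the two synonymous blocks -/
def U (m : ℕ) : List ℕ := [m + 10, m + 8, m + 6, m + 3]
def V (m : ℕ) : List ℕ := [m + 10, m + 7, m + 5, m + 3]

/-- the low case: `k ≤ m + 1` -/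
lemma low_case (m k : ℕ) (hm : 2 ≤ m) (hk : k ≤ m + 1) (W : List ℕ) (hW : Z W)
    (hW2 : ∀ a ∈ W, 2 ≤ a ∧ a + 1 ≤ m) :
    ∃ W' : List ℕ, Z W' ∧ (∀ a ∈ W', 2 ≤ a ∧ a ≤ m + 1) ∧ S 0 W' = S 0 W + Nat.fib k := by
  refine ⟨Nat.zeckendorf (S 0 W + Nat.fib k), (Z_zeck _).1, ?_, S_zeck _⟩
  intro a ha
  refine ⟨(Z_zeck _).2 a ha, ?_⟩
  have h1 := fib_le_S 0 _ a ha
  rw [S_zeck] at h1
  have h2 := S_lt 0 W (m - 1) hW (fun a ha => by have := hW2 a ha; omega) (by omega)
  have e : m - 1 + 1 + 0 = m := by omega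
  rw [e] at h2
  have h3 := Nat.fib_mono hk
  have h4 := fib_rec m
  by_contra hcon
  have h5 := Nat.fib_mono (show m + 2 ≤ a + 0 by omega)
  omega

/-- finishing lemma: high part, middle part, low part -/
lemma assemble (N : ℕ) (_m : ℕ) (A M W : List ℕ) (hA : Z A) (hM : Z M) (hW : Z W) (t b : ℕ)
    (hA2 : ∀ a ∈ A, t + 2 ≤ a) (hM2 : ∀ a ∈ M, b + 2 ≤ a ∧ a ≤ t)
    (hW2 : ∀ a ∈ W, 2 ≤ a ∧ a ≤ b) (hbt : b ≤ t)
    (hs : S 0 A + S 0 M + S 0 W = N) :
    ftm N = (A.length + M.length + W.length) % 2 := by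
  have h := ftm_of N (A ++ M ++ W) (by
    rw [Z_append, Z_append]
    refine ⟨⟨hA, hM, fun a ha c hc => ?_⟩, hW, fun a ha c hc => ?_⟩
    · have := hA2 a ha; have := hM2 c hc; omega
    · rw [List.mem_append] at ha
      have := hW2 c hc
      rcases ha with ha | ha
      · have := hA2 a ha; omega
      · have := hM2 a ha; omega) (by
    intro a ha
    simp only [List.mem_append] at ha
    rcases ha with (ha | ha) | ha
    · have := hA2 a ha; omega
    · have := hM2 a ha; omega
    · exact (hW2 a ha).1) (by simp only [S_append]; exact hs)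
  rw [h]
  simp only [List.length_append]

lemma hi_same (m : ℕ) (hm : 2 ≤ m) (A W : List ℕ) (hA : Z A) (hA2 : ∀ a ∈ A, m + 12 ≤ a)
    (hW : Z W) (hW2 : ∀ a ∈ W, 2 ≤ a ∧ a + 1 ≤ m) (N N' : ℕ)
    (hN : N = S 0 A + S 0 (U m) + S 0 W) (hN' : N' = S 0 A + S 0 (V m) + S 0 W) :
    ftm N = ftm N' := by
  rw [assemble N m A (U m) W hA (by simp [U, Z]) hW (m + 10) (m - 1) (fun a ha => by
      have := hA2 a ha; omega) (by simp [U]; omega) (fun a ha => by
      have := hW2 a ha; omega) (by omega) hN.symm,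
    assemble N' m A (V m) W hA (by simp [V, Z]) hW (m + 10) (m - 1) (fun a ha => by
      have := hA2 a ha; omega) (by simp [V]; omega) (fun a ha => by
      have := hW2 a ha; omega) (by omega) hN'.symm]
  simp [U, V]

lemma hi_same' (m : ℕ) (hm : 2 ≤ m) (A W : List ℕ) (hA : Z A) (hA2 : ∀ a ∈ A, m + 13 ≤ a)
    (hW : Z W) (hW2 : ∀ a ∈ W, 2 ≤ a ∧ a + 1 ≤ m) (N N' : ℕ)
    (hN : N = S 0 A + S 0 (U m) + S 0 W + Nat.fib (m + 11))
    (hN' : N' = S 0 A + S 0 (V m) + S 0 W + Nat.fib (m + 11)) :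
    ftm N = ftm N' := by
  obtain ⟨A', h1, h2, h3⟩ := carry_up A (m + 12) hA (fun a ha => by have := hA2 a ha; omega)
  have h3' := h3 0
  simp only [add_zero] at h3'
  have e := fib_rec (m + 10)
  have e1 : m + 10 + 2 = m + 12 := rfl
  have e2 : m + 10 + 1 = m + 11 := rfl
  rw [e1, e2] at e
  rw [assemble N m A' [m + 8, m + 6, m + 3] W h1 (by simp [Z]) hW (m + 10) (m - 1)
      (fun a ha => by have := h2 a ha; omega) (by simp; omega) (fun a ha => by
      have := hW2 a ha; omega) (by omega) (by rw [hN, h3']; simp [U]; omega),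
    assemble N' m A' [m + 7, m + 5, m + 3] W h1 (by simp [Z]) hW (m + 10) (m - 1)
      (fun a ha => by have := h2 a ha; omega) (by simp; omega) (fun a ha => by
      have := hW2 a ha; omega) (by omega) (by rw [hN', h3']; simp [V]; omega)]
  simp

theorem syn (m k : ℕ) (hm : 2 ≤ m) (A W : List ℕ) (hA : Z A) (hA2 : ∀ a ∈ A, m + 13 ≤ a)
    (hW : Z W) (hW2 : ∀ a ∈ W, 2 ≤ a ∧ a + 1 ≤ m) :
    ftm (S 0 A + S 0 (U m) + S 0 W + Nat.fib k) =
      ftm (S 0 A + S 0 (V m) + S 0 W + Nat.fib k) := by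
  by_cases c1 : k ≤ m + 1
  · obtain ⟨W', h1, h2, h3⟩ := low_case m k hm c1 W hW hW2
    rw [assemble _ m A (U m) W' hA (by simp [U, Z]) h1 (m + 10) (m + 1) (fun a ha => by
        have := hA2 a ha; omega) (by simp [U]) h2 (by omega) (by rw [h3]; ring),
      assemble _ m A (V m) W' hA (by simp [V, Z]) h1 (m + 10) (m + 1) (fun a ha => by
        have := hA2 a ha; omega) (by simp [V]) h2 (by omega) (by rw [h3]; ring)]
    simp [U, V]
  by_cases c2 : k ≤ m + 10
  · obtain ⟨p, hp⟩ : ∃ p, k = m + p := ⟨k - m, by omega⟩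
    subst hp
    have hp1 : 2 ≤ p := by omega
    have hp2 : p ≤ 10 := by omega
    have e0 := fib_rec m
    have e1 := fib_rec (m + 1)
    have e2 := fib_rec (m + 2)
    have e3 := fib_rec (m + 3)
    have e4 := fib_rec (m + 4)
    have e5 := fib_rec (m + 5)
    have e6 := fib_rec (m + 6)
    have e7 := fib_rec (m + 7)
    have e8 := fib_rec (m + 8)
    have e9 := fib_rec (m + 9)
    simp only [add_assoc, Nat.reduceAdd] at e0 e1 e2 e3 e4 e5 e6 e7 e8 e9
    have key : ∀ M M' : List ℕ, Z M → Z M' → (∀ a ∈ M, m + 1 ≤ a ∧ a ≤ m + 11) →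
        (∀ a ∈ M', m + 1 ≤ a ∧ a ≤ m + 11) →
        S 0 M = S 0 (U m) + Nat.fib (m + p) → S 0 M' = S 0 (V m) + Nat.fib (m + p) →
        M.length % 2 = M'.length % 2 →
        ftm (S 0 A + S 0 (U m) + S 0 W + Nat.fib (m + p)) =
          ftm (S 0 A + S 0 (V m) + S 0 W + Nat.fib (m + p)) := by
      intro M M' g1 g2 g3 g4 g5 g6 g7
      rw [assemble _ m A M W hA g1 hW (m + 11) (m - 1) (fun a ha => by
          have := hA2 a ha; omega) (fun a ha => by have := g3 a ha; omega) (fun a ha => by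
          have := hW2 a ha; omega) (by omega) (by rw [g5]; ring),
        assemble _ m A M' W hA g2 hW (m + 11) (m - 1) (fun a ha => by
          have := hA2 a ha; omega) (fun a ha => by have := g4 a ha; omega) (fun a ha => by
          have := hW2 a ha; omega) (by omega) (by rw [g6]; ring)]
      omega
    interval_cases p
    · exact key [m + 10, m + 8, m + 6, m + 4] [m + 10, m + 8] (by simp [Z]) (by simp [Z]) (by simp) (by simp)
        (by simp [U]; omega) (by simp [V]; omega) (by simp)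
    · exact key [m + 10, m + 8, m + 6, m + 4, m + 1] [m + 10, m + 8, m + 1] (by simp [Z]) (by simp [Z]) (by simp) (by simp)
        (by simp [U]; omega) (by simp [V]; omega) (by simp)
    · exact key [m + 11] [m + 10, m + 8, m + 3] (by simp [Z]) (by simp [Z]) (by simp) (by simp)
        (by simp [U]; omega) (by simp [V]; omega) (by simp)
    · exact key [m + 11, m + 3] [m + 10, m + 8, m + 4, m + 1] (by simp [Z]) (by simp [Z]) (by simp) (by simp)
        (by simp [U]; omega) (by simp [V]; omega) (by simp)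
    · exact key [m + 11, m + 5] [m + 10, m + 8, m + 5, m + 3] (by simp [Z]) (by simp [Z]) (by simp) (by simp)
        (by simp [U]; omega) (by simp [V]; omega) (by simp)
    · exact key [m + 11, m + 6, m + 3] [m + 10, m + 8, m + 6, m + 4, m + 1] (by simp [Z]) (by simp [Z]) (by simp) (by simp)
        (by simp [U]; omega) (by simp [V]; omega) (by simp)
    · exact key [m + 11, m + 7, m + 5] [m + 11, m + 5, m + 3] (by simp [Z]) (by simp [Z]) (by simp) (by simp)
        (by simp [U]; omega) (by simp [V]; omega) (by simp)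
    · exact key [m + 11, m + 8, m + 6, m + 3] [m + 11, m + 7, m + 5, m + 3] (by simp [Z]) (by simp [Z]) (by simp) (by simp)
        (by simp [U]; omega) (by simp [V]; omega) (by simp)
    · exact key [m + 11, m + 9, m + 7, m + 5] [m + 11, m + 9, m + 5, m + 3] (by simp [Z]) (by simp [Z]) (by simp) (by simp)
        (by simp [U]; omega) (by simp [V]; omega) (by simp)
  by_cases c3 : k = m + 11
  · subst c3
    exact hi_same' m hm A W hA hA2 hW hW2 _ _ rfl rfl
  by_cases c4 : k = m + 12
  · subst c4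
    obtain ⟨A', h1, h2, h3⟩ := carry_up A (m + 12) hA (fun a ha => by have := hA2 a ha; omega)
    have h3' := h3 0
    simp only [add_zero] at h3'
    exact hi_same m hm A' W h1 h2 hW hW2 _ _ (by rw [h3']; ring) (by rw [h3']; ring)
  · obtain ⟨A', h1, h2, h3⟩ := add_general (m + 11) k A hA hA2 (by omega)
    have h3' := h3 0
    simp only [add_zero] at h3'
    obtain ⟨hi, lo, rfl, hhi, hlo⟩ := split_at A' (m + 12) h1
    rw [Z_append] at h1
    rcases lo with _ | ⟨b, r⟩
    · rw [List.append_nil] at h3'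
      exact hi_same m hm hi W h1.1 hhi hW hW2 _ _ (by rw [h3']; ring) (by rw [h3']; ring)
    · have hb1 := hlo b (by simp)
      have hb2 := h2 b (by simp)
      have hb : b = m + 11 := by omega
      subst hb
      have hr : r = [] := by
        rcases r with _ | ⟨c, r⟩
        · rfl
        · have t1 := h2 c (by simp)
          have t2 := (Z_cons _ _).1 h1.2.1
          have t3 := t2.1 c (by simp)
          omega
      subst hr
      simp only [S_append, S_cons, S_nil, add_zero] at h3'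
      exact hi_same' m hm hi W h1.1 (fun a ha => by
        have := h1.2.2 a ha (m + 11) (by simp); omega) hW hW2 _ _ (by omega) (by omega)

end Pool.Agent.FibShift
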