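import Pool.Agent.FibShift.Syn

namespace Pool.Agent.FibShift

lemma S_map (s L : ℕ) (A : List ℕ) : S s (A.map (· + L)) = S (s + L) A := by
  induction A with
  | nil => simp
  | cons a A ih =>
    simp only [List.map_cons, S_cons, ih]
    congr 2
    ring

lemma Z_map (L : ℕ) (A : List ℕ) (h : Z A) : Z (A.map (· + L)) := by
  induction A with
  | nil => simp [Z]
  | cons a A ih =>
    rw [List.map_cons, Z_cons]
    rw [Z_cons] at h
    refine ⟨?_, ih h.2⟩
    intro b hb
    simp only [List.mem_map] at hb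
    obtain ⟨c, hc, rfl⟩ := hb
    have := h.1 c hc
    omega

lemma head_max (B : List ℕ) (t : ℕ) (hZ : Z B) (h : ∀ b ∈ B, b ≤ t) (ht : t ∈ B) :
    ∃ B'', B = t :: B'' ∧ Z B'' ∧ ∀ b ∈ B'', b + 2 ≤ t := by
  rcases B with _ | ⟨b, B⟩
  · simp at ht
  · have hb := h b (by simp)
    rw [Z_cons] at hZ
    have : b = t := by
      simp at ht
      rcases ht with ht | ht
      · exact ht.symm
      · have := hZ.1 t ht; omega
    subst this
    exact ⟨B, rfl, hZ.2, hZ.1⟩

/-- two-part assembly -/
lemma assemble2 (N : ℕ) (A W : List ℕ) (hA : Z A) (hW : Z W) (b : ℕ)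
    (hA2 : ∀ a ∈ A, 2 ≤ a ∧ b + 2 ≤ a) (hW2 : ∀ a ∈ W, 2 ≤ a ∧ a ≤ b)
    (hs : S 0 A + S 0 W = N) :
    ftm N = (A.length + W.length) % 2 := by
  have h := ftm_of N (A ++ W) (by
    rw [Z_append]
    refine ⟨hA, hW, fun a ha c hc => ?_⟩
    have := hA2 a ha; have := hW2 c hc; omega) (by
    intro a ha
    simp only [List.mem_append] at ha
    rcases ha with ha | ha
    · exact (hA2 a ha).1
    · exact (hW2 a ha).1) (by simp only [S_append]; exact hs)
  rw [h]
  simp only [List.length_append]

lemma zeck_le (N t : ℕ) (h : N < Nat.fib (t + 1)) : ∀ b ∈ Nat.zeckendorf N, b ≤ t := by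
  intro b hb
  have h1 := fib_le_S 0 _ b hb
  rw [S_zeck] at h1
  by_contra hcon
  have := Nat.fib_mono (show t + 1 ≤ b + 0 by omega)
  omega

lemma trunc0 (L k : ℕ) (hk : k ≤ L) (A B : List ℕ) (hA : Z A) (hA3 : ∀ a ∈ A, 3 ≤ a)
    (hB : Z B) (hB2 : ∀ b ∈ B, 2 ≤ b ∧ b ≤ L + 1) :
    ftm (S L A + S 0 B + Nat.fib k) =
      if L + 2 ∈ Nat.zeckendorf (S 0 B + Nat.fib k) then
        (ftm (S 0 A + 1) + (Nat.zeckendorf (S 0 B + Nat.fib k)).length + 1) % 2
      else (ftm (S 0 A) + (Nat.zeckendorf (S 0 B + Nat.fib k)).length) % 2 := by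
  have hlt : S 0 B + Nat.fib k < Nat.fib (L + 2 + 1) := by
    have t1 := S_lt 0 B (L + 1) hB (fun a ha => by have := hB2 a ha; omega) (by omega)
    simp only [add_zero] at t1
    have t2 := Nat.fib_mono hk
    have t3 := fib_rec (L + 1)
    have t4 : Nat.fib L ≤ Nat.fib (L + 1) := Nat.fib_le_fib_succ
    have e1 : L + 1 + 2 = L + 2 + 1 := by ring
    have e2 : L + 1 + 1 = L + 2 := by ring
    rw [e1, e2] at t3
    rw [e2] at t1
    omega
  have hle := zeck_le _ _ hlt
  have hsum := S_zeck (S 0 B + Nat.fib k)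
  have hz := Z_zeck (S 0 B + Nat.fib k)
  set B' := Nat.zeckendorf (S 0 B + Nat.fib k) with hB'
  split_ifs with hmem
  · obtain ⟨B'', hBe, hZ'', hb''⟩ := head_max B' (L + 2) hz.1 hle hmem
    obtain ⟨A', g1, g2, g3⟩ := carry_up A 2 hA (fun a ha => by have := hA3 a ha; omega)
    have hg0 := g3 0
    simp only [add_zero, Nat.fib_two] at hg0
    have hf : ftm (S 0 A + 1) = A'.length % 2 := by
      rw [← hg0]; exact ftm_S A' g1 g2
    rw [hf]
    rw [assemble2 _ (A'.map (· + L)) B'' (Z_map L A' g1) hZ'' L (by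
        intro a ha
        simp only [List.mem_map] at ha
        obtain ⟨c, hc, rfl⟩ := ha
        have := g2 c hc
        omega) (by
        intro b hb
        have h1 := hz.2 b (by rw [hBe]; simp [hb])
        have h2 := hb'' b hb
        omega) (by
        rw [S_map, g3]
        rw [hBe] at hsum
        simp only [S_cons, add_zero] at hsum
        have e : 2 + (0 + L) = L + 2 := by ring
        rw [e]
        have e3 : 0 + L = L := by ring
        rw [e3]
        omega)]
    rw [hBe]
    simp
    omega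
  · rw [ftm_S A hA (fun a ha => by have := hA3 a ha; omega)]
    rw [assemble2 _ (A.map (· + L)) B' (Z_map L A hA) hz.1 (L + 1) (by
        intro a ha
        simp only [List.mem_map] at ha
        obtain ⟨c, hc, rfl⟩ := ha
        have := hA3 c hc
        omega) (by
        intro b hb
        have h1 := hz.2 b hb
        have h2 := hle b hb
        have h3 : b ≠ L + 2 := fun h => hmem (h ▸ hb)
        omega) (by
        rw [S_map, hsum]
        have e3 : 0 + L = L := by ring
        rw [e3]
        omega)]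
    simp

lemma trunc1 (L k : ℕ) (hk : k ≤ L) (A B : List ℕ) (hA : Z A) (hA3 : ∀ a ∈ A, 4 ≤ a)
    (hB : Z B) (hB2 : ∀ b ∈ B, 2 ≤ b ∧ b ≤ L) :
    ftm (S L (A ++ [2]) + S 0 B + Nat.fib k) =
      if L + 1 ∈ Nat.zeckendorf (S 0 B + Nat.fib k) then
        (ftm (S 0 (A ++ [2]) + 1) + (Nat.zeckendorf (S 0 B + Nat.fib k)).length + 1) % 2
      else (ftm (S 0 (A ++ [2])) + (Nat.zeckendorf (S 0 B + Nat.fib k)).length) % 2 := by
  have hlt : S 0 B + Nat.fib k < Nat.fib (L + 1 + 1) := by
    have t1 := S_lt 0 B L hB (fun a ha => by have := hB2 a ha; omega) (by omega)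
    simp only [add_zero] at t1
    have t2 := Nat.fib_mono hk
    have t3 := fib_rec L
    have e1 : L + 1 + 1 = L + 2 := by ring
    rw [e1]
    omega
  have hle := zeck_le _ _ hlt
  have hsum := S_zeck (S 0 B + Nat.fib k)
  have hz := Z_zeck (S 0 B + Nat.fib k)
  set B' := Nat.zeckendorf (S 0 B + Nat.fib k) with hB'
  have hZA2 : Z (A ++ [2]) := by
    rw [Z_append]
    exact ⟨hA, by simp [Z], fun a ha b hb => by
      simp at hb; subst hb; have := hA3 a ha; omega⟩
  split_ifs with hmem
  · obtain ⟨B'', hBe, hZ'', hb''⟩ := head_max B' (L + 1) hz.1 hle hmem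
    obtain ⟨A', g1, g2, g3⟩ := carry_up A 3 hA (fun a ha => by have := hA3 a ha; omega)
    have hg0 := g3 0
    have hf3 : Nat.fib 3 = 2 := by decide
    simp only [add_zero, hf3] at hg0
    have hf : ftm (S 0 (A ++ [2]) + 1) = A'.length % 2 := by
      have : S 0 (A ++ [2]) + 1 = S 0 A' := by
        rw [hg0]; simp
      rw [this]; exact ftm_S A' g1 (fun a ha => by have := g2 a ha; omega)
    rw [hf]
    rw [assemble2 _ (A'.map (· + L)) B'' (Z_map L A' g1) hZ'' (L - 1) (by
        intro a ha
        simp only [List.mem_map] at ha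
        obtain ⟨c, hc, rfl⟩ := ha
        have := g2 c hc
        omega) (by
        intro b hb
        have h1 := hz.2 b (by rw [hBe]; simp [hb])
        have h2 := hb'' b hb
        omega) (by
        rw [S_map, g3]
        rw [hBe] at hsum
        simp only [S_cons, add_zero] at hsum
        have e : 3 + (0 + L) = L + 1 + 2 := by ring
        rw [e, fib_rec (L + 1)]
        have e3 : 0 + L = L := by ring
        rw [e3]
        simp only [S_append, S_cons, S_nil]
        have e4 : 2 + L = L + 1 + 1 := by ring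
        rw [e4]
        omega)]
    rw [hBe]
    simp
    omega
  · rw [ftm_S (A ++ [2]) hZA2 (fun a ha => by
      simp at ha
      rcases ha with ha | rfl
      · have := hA3 a ha; omega
      · omega)]
    rw [assemble2 _ ((A ++ [2]).map (· + L)) B' (Z_map L _ hZA2) hz.1 L (by
        intro a ha
        simp only [List.mem_map] at ha
        obtain ⟨c, hc, rfl⟩ := ha
        simp at hc
        rcases hc with hc | rfl
        · have := hA3 c hc
          omega
        · omega) (by
        intro b hb
        have h1 := hz.2 b hb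
        have h2 := hle b hb
        have h3 : b ≠ L + 1 := fun h => hmem (h ▸ hb)
        omega) (by
        rw [S_map, hsum]
        have e3 : 0 + L = L := by ring
        rw [e3]
        omega)]
    simp

end Pool.Agent.FibShift
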