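import Pool.Agent.FibShift.Trunc

namespace Pool.Agent.FibShift

/-- indices of the ones of a word whose last digit has index `s` -/
def idx (s : ℕ) : List Bool → List ℕ
  | [] => []
  | b :: w => if b then (w.length + s) :: idx s w else idx s w

lemma idx_append (s : ℕ) (x y : List Bool) : idx s (x ++ y) = idx (y.length + s) x ++ idx s y := by
  induction x with
  | nil => simp [idx]
  | cons b x ih =>
    cases b
    · simp only [List.cons_append, idx, ih]; simp
    · simp only [List.cons_append, idx, ih, if_true, List.length_append, add_assoc,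
        List.cons_append]

lemma S_idx (s : ℕ) (w : List Bool) : ∀ d, S 0 (idx (d + s) w) = S d (idx s w) := by
  induction w with
  | nil => intro d; simp [idx]
  | cons b w ih =>
    intro d
    cases b
    · simp only [idx]; simp [ih]
    · simp only [idx, if_true, S_cons, ih]
      congr 2
      ring

lemma fibVal_eq (w : List Bool) : fibVal w = S 0 (idx 2 w) := by
  induction w with
  | nil => simp [fibVal, idx]
  | cons b w ih =>
    cases b
    · simp [fibVal, idx, ih]
    · simp [fibVal, idx, ih]

lemma idx_bound (s : ℕ) (w : List Bool) : ∀ a ∈ idx s w, s ≤ a ∧ a < w.length + s := by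
  induction w with
  | nil => simp [idx]
  | cons b w ih =>
    cases b
    · intro a ha
      simp [idx] at ha
      have := ih a ha
      simp; omega
    · intro a ha
      simp [idx] at ha
      rcases ha with rfl | ha
      · simp
      · have := ih a ha
        simp; omega

lemma noC_cons (b : Bool) (w : List Bool) (h : NoConsecOnes (b :: w)) : NoConsecOnes w :=
  List.IsChain.of_cons h

lemma idx_Z (s : ℕ) (w : List Bool) (h : NoConsecOnes w) : Z (idx s w) := by
  induction w with
  | nil => simp [idx, Z]
  | cons b w ih =>
    have hw := noC_cons b w h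
    cases b
    · simpa [idx] using ih hw
    · simp only [idx, if_true]
      rw [Z_cons]
      refine ⟨?_, ih hw⟩
      rcases w with _ | ⟨c, w⟩
      · simp [idx]
      · have hc : c = false := by
          unfold NoConsecOnes at h
          rw [List.isChain_cons_cons] at h
          simpa using h.1
        subst hc
        intro a ha
        simp [idx] at ha
        have := idx_bound s w a ha
        simp; omega

/-- last digit, `false` for the empty word -/
def lastD (w : List Bool) : Bool := w.getLast?.getD false
/-- first digit, `false` for the empty word -/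
def headD (w : List Bool) : Bool := w.head?.getD false

lemma noC_append (x z : List Bool) : NoConsecOnes (x ++ z) ↔
    NoConsecOnes x ∧ NoConsecOnes z ∧ ¬ (lastD x = true ∧ headD z = true) := by
  unfold NoConsecOnes
  rw [List.isChain_append]
  constructor
  · rintro ⟨h1, h2, h3⟩
    refine ⟨h1, h2, ?_⟩
    rintro ⟨h4, h5⟩
    rcases hx : x.getLast? with _ | a
    · simp [lastD, hx] at h4
    · rcases hz : z.head? with _ | b
      · simp [headD, hz] at h5
      · simp [lastD, hx] at h4
        simp [headD, hz] at h5
        exact h3 a hx b hz ⟨h4, h5⟩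
  · rintro ⟨h1, h2, h3⟩
    refine ⟨h1, h2, ?_⟩
    intro a ha b hb hab
    apply h3
    simp [lastD, headD, Option.mem_def.1 ha, Option.mem_def.1 hb, hab]

lemma noC_nil : NoConsecOnes [] := by simp [NoConsecOnes]

lemma lastD_append (x z : List Bool) (hz : z ≠ []) : lastD (x ++ z) = lastD z := by
  unfold lastD
  rw [List.getLast?_append_of_ne_nil x hz]

lemma headD_append (x z : List Bool) (hx : x ≠ []) : headD (x ++ z) = headD x := by
  unfold headD
  rcases x with _ | ⟨a, x⟩
  · exact absurd rfl hx
  · simp

/-- the right congruence -/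
def Eqv (c : ℕ) (x y : List Bool) : Prop :=
  lastD x = lastD y ∧ ∀ z, NoConsecOnes (x ++ z) → NoConsecOnes (y ++ z) →
    ftm (fibVal (x ++ z) + c) = ftm (fibVal (y ++ z) + c)

lemma Eqv.symm {c : ℕ} {x y : List Bool} (h : Eqv c x y) : Eqv c y x :=
  ⟨h.1.symm, fun z h1 h2 => (h.2 z h2 h1).symm⟩

lemma valid_of_last {x y z : List Bool} (h : lastD x = lastD y) (hy : NoConsecOnes y)
    (hxz : NoConsecOnes (x ++ z)) : NoConsecOnes (y ++ z) := by
  rw [noC_append] at hxz ⊢
  exact ⟨hy, hxz.2.1, by rw [← h]; exact hxz.2.2⟩

lemma Eqv.trans {c : ℕ} {x y w : List Bool} (hy : NoConsecOnes y) (h : Eqv c x y)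
    (h' : Eqv c y w) : Eqv c x w := by
  refine ⟨h.1.trans h'.1, fun z h1 h2 => ?_⟩
  have h3 : NoConsecOnes (y ++ z) := valid_of_last h.1 hy h1
  rw [h.2 z h1 h3, h'.2 z h3 h2]

lemma Eqv.refl (c : ℕ) (x : List Bool) : Eqv c x x := ⟨rfl, fun _ _ _ => rfl⟩

lemma Eqv.append {c : ℕ} {x y : List Bool} (h : Eqv c x y) (z : List Bool) :
    Eqv c (x ++ z) (y ++ z) := by
  constructor
  · rcases z with _ | ⟨b, z⟩
    · simpa using h.1
    · rw [lastD_append _ _ (by simp), lastD_append _ _ (by simp)]
  · intro w h1 h2
    rw [List.append_assoc] at h1 h2 ⊢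
    rw [List.append_assoc]
    exact h.2 _ h1 h2

/-- the two synonymous blocks -/
def bu : List Bool := [false, false, true, false, true, false, true, false, false, true, false,
  false, false]
def bv : List Bool := [false, false, true, false, false, true, false, true, false, true, false,
  false, false]

lemma idx_bu (m : ℕ) : idx m bu = U m := by
  simp [idx, bu, U, add_comm]
lemma idx_bv (m : ℕ) : idx m bv = V m := by
  simp [idx, bv, V, add_comm]

lemma fibVal_block (α b β : List Bool) : fibVal (α ++ (b ++ β)) =
    S 0 (idx (β.length + 2 + b.length) α) + S 0 (idx (β.length + 2) b) + S 0 (idx 2 β) := by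
  rw [fibVal_eq, idx_append, idx_append]
  simp only [S_append, List.length_append]
  have e : b.length + β.length + 2 = β.length + 2 + b.length := by ring
  rw [e]
  ring

lemma syn_words (k : ℕ) (α β : List Bool) (h : NoConsecOnes (α ++ (bu ++ β))) :
    NoConsecOnes (α ++ (bv ++ β)) ∧ Eqv (Nat.fib k) (α ++ (bu ++ β)) (α ++ (bv ++ β)) ∧
    fibVal (α ++ (bv ++ β)) < fibVal (α ++ (bu ++ β)) := by
  have hval : NoConsecOnes (α ++ (bv ++ β)) := by
    rw [noC_append, noC_append] at h ⊢
    refine ⟨h.1, ⟨by simp [NoConsecOnes, bv], h.2.1.2.1, by simp [lastD, bv]⟩,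
      by rw [headD_append _ _ (by simp [bv])]; simp [headD, bv]⟩
  refine ⟨hval, ⟨?_, ?_⟩, ?_⟩
  · have e1 : ∀ b : List Bool, b ≠ [] → lastD b = false → lastD (α ++ (b ++ β)) = lastD β := by
      intro b hb hl
      rw [lastD_append _ _ (by simp [hb])]
      rcases β with _ | ⟨c, β⟩
      · simpa [lastD] using hl
      · rw [lastD_append _ _ (by simp)]
    rw [e1 bu (by simp [bu]) (by simp [bu, lastD]), e1 bv (by simp [bv]) (by simp [bv, lastD])]
  · intro z h1 h2
    have h1' : NoConsecOnes (α ++ (bu ++ (β ++ z))) := by simpa using h1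
    have e1 : ∀ b : List Bool, α ++ (b ++ β) ++ z = α ++ (b ++ (β ++ z)) := by
      intro b; simp
    rw [e1, e1, fibVal_block, fibVal_block, idx_bu, idx_bv]
    rw [noC_append, noC_append] at h1'
    have l1 : bu.length = 13 := by simp [bu]
    have l2 : bv.length = 13 := by simp [bv]
    rw [l1, l2]
    exact syn ((β ++ z).length + 2) k (by omega) (idx ((β ++ z).length + 2 + 13) α)
      (idx 2 (β ++ z)) (idx_Z _ _ h1'.1) (fun a ha => by
        have := idx_bound _ _ a ha; omega) (idx_Z _ _ h1'.2.1.2.1) (fun a ha => by
        have := idx_bound _ _ a ha; omega)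
  · rw [fibVal_block, fibVal_block, idx_bu, idx_bv]
    have l1 : bu.length = 13 := by simp [bu]
    have l2 : bv.length = 13 := by simp [bv]
    rw [l1, l2]
    have : S 0 (V (β.length + 2)) < S 0 (U (β.length + 2)) := by
      simp only [U, V, S_cons, S_nil, add_zero]
      set m := β.length + 2
      have e1 := fib_rec (m + 6)
      have e2 := fib_rec (m + 5)
      have e3 := fib_rec (m + 4)
      have e4 : 0 < Nat.fib (m + 6) := Nat.fib_pos.2 (by omega)
      have e5 : 0 < Nat.fib (m + 4) := Nat.fib_pos.2 (by omega)
      simp only [add_assoc, Nat.reduceAdd] at e1 e2 e3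
      omega
    omega

/-- the type of a word: last digit and the values of the sequence at its value and the next -/
def typ (x : List Bool) : Bool × ℕ × ℕ := (lastD x, ftm (fibVal x), ftm (fibVal x + 1))

lemma fibVal_two (x y : List Bool) : fibVal (x ++ y) = S y.length (idx 2 x) + S 0 (idx 2 y) := by
  rw [fibVal_eq, idx_append, S_append, S_idx]

/-- The value after appending a long word depends only on the type. -/
lemma typ_formula (k : ℕ) (x w : List Bool) (hk : k ≤ w.length) (h : NoConsecOnes (x ++ w)) :
    ftm (fibVal (x ++ w) + Nat.fib k) =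
      if (w.length + (if lastD x then 1 else 2)) ∈ Nat.zeckendorf (fibVal w + Nat.fib k) then
        ((typ x).2.2 + (Nat.zeckendorf (fibVal w + Nat.fib k)).length + 1) % 2
      else ((typ x).2.1 + (Nat.zeckendorf (fibVal w + Nat.fib k)).length) % 2 := by
  rw [noC_append] at h
  obtain ⟨hx, hw, hxw⟩ := h
  rw [fibVal_two, fibVal_eq w]
  simp only [typ]
  rcases hl : lastD x with _ | _
  · -- last digit 0
    have hA3 : ∀ a ∈ idx 2 x, 3 ≤ a := by
      rcases List.eq_nil_or_concat x with rfl | ⟨x', b, rfl⟩
      · simp [idx]
      · have hb : b = false := by simpa [lastD] using hl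
        subst hb
        rw [List.concat_eq_append, idx_append]
        intro a ha
        simp [idx] at ha
        have := idx_bound _ _ a ha
        omega
    have := trunc0 w.length k hk (idx 2 x) (idx 2 w) (idx_Z _ _ hx) hA3 (idx_Z _ _ hw)
      (fun b hb => by have := idx_bound _ _ b hb; omega)
    rw [this]
    simp [fibVal_eq]
  · have hwh : headD w = false := by
      have : ¬ (headD w = true) := fun h => hxw ⟨hl, h⟩
      simpa using this
    rcases List.eq_nil_or_concat x with rfl | ⟨x', b, rfl⟩
    · simp [lastD] at hl
    · have hb : b = true := by simpa [lastD] using hl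
      subst hb
      rw [List.concat_eq_append] at hx hl ⊢
      have hidx : idx 2 (x' ++ [true]) = idx 3 x' ++ [2] := by
        rw [idx_append]; simp [idx, add_comm]
      rw [noC_append] at hx
      have hA4 : ∀ a ∈ idx 3 x', 4 ≤ a := by
        rcases List.eq_nil_or_concat x' with rfl | ⟨x'', b, rfl⟩
        · simp [idx]
        · have hb : b = false := by
            have := hx.2.2
            simpa [lastD, headD] using this
          subst hb
          rw [List.concat_eq_append, idx_append]
          intro a ha
          simp [idx] at ha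
          have := idx_bound _ _ a ha
          omega
      have hBw : ∀ b ∈ idx 2 w, 2 ≤ b ∧ b ≤ w.length := by
        rcases w with _ | ⟨c, w⟩
        · simp [idx]
        · have hc : c = false := by simpa [headD] using hwh
          subst hc
          intro b hb
          simp [idx] at hb
          have := idx_bound _ _ b hb
          simp; omega
      have := trunc1 w.length k hk (idx 3 x') (idx 2 w) (idx_Z _ _ hx.1) hA4 (idx_Z _ _ hw) hBw
      rw [← hidx] at this
      rw [this]
      simp [fibVal_eq]

lemma trunc_words (k : ℕ) (x y s : List Bool) (hk : k ≤ s.length) (ht : typ x = typ y)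
    (hx : NoConsecOnes (x ++ s)) (hy : NoConsecOnes y) :
    Eqv (Nat.fib k) (x ++ s) (y ++ s) := by
  have hlast : lastD x = lastD y := by
    have := congrArg Prod.fst ht
    simpa [typ] using this
  constructor
  · rcases s with _ | ⟨b, s⟩
    · simpa using hlast
    · rw [lastD_append _ _ (by simp), lastD_append _ _ (by simp)]
  · intro z h1 h2
    rw [List.append_assoc] at h1 h2 ⊢
    rw [List.append_assoc]
    rw [typ_formula k x (s ++ z) (by simp; omega) h1, typ_formula k y (s ++ z) (by simp; omega) h2,
      ht, hlast]

end Pool.Agent.FibShift
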